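import Pool.Agent.Lib.H48I.Graphic

/-!
# Every Polish group is graphic
-/

namespace Pool.Agent.Results.MP_7aa222_lc.PolishGroupsGraphic

universe u v

/-- `s` is a Borel set of the topological space `A`. -/
def BorelSet {A : Type u} [TopologicalSpace A] (s : Set A) : Prop := @MeasurableSet A (borel A) s

/-- `f` is a Borel map: preimages of Borel sets are Borel. -/
def BorelMap {A : Type u} {B : Type v} [TopologicalSpace A] [TopologicalSpace B] (f : A → B) : Prop :=
  ∀ s : Set B, BorelSet s → BorelSet (f ⁻¹' s)

/-- The action of `G` on `X` is Borel: the map `(g, x) ↦ g • x` on `G × X` is Borel. -/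
def BorelAction (G : Type u) (X : Type v) [TopologicalSpace G] [TopologicalSpace X] [SMul G X] : Prop :=
  BorelMap fun p : G × X => p.1 • p.2

/-- `R` is a Borel graph on `X`: a symmetric, irreflexive relation which is a Borel subset of `X × X`. -/
structure BorelGraph {X : Type v} [TopologicalSpace X] (R : X → X → Prop) : Prop where
  symm : ∀ x y, R x y → R y x
  irrefl : ∀ x, ¬ R x x
  borel : BorelSet {p : X × X | R p.1 p.2}

/-- `x` and `y` are in the same orbit of `G`. -/
def OrbitEq (G : Type u) {X : Type v} [SMul G X] (x y : X) : Prop := ∃ g : G, g • x = y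

/-- **Every Polish group is graphic.** For every Borel action of a Polish group `G` on a Polish space `X` there is a
Borel graph `R` on `X` whose connected components are exactly the orbits. Moreover two distinct points of an orbit are
adjacent or have a common neighbour, and `R` is generated by countably many Borel functions from `X` to `X`. -/
theorem result (G : Type u) [Group G] [TopologicalSpace G] [IsTopologicalGroup G] [PolishSpace G]
    (X : Type v) [TopologicalSpace X] [PolishSpace X] [MulAction G X] (hact : BorelAction G X) :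
    ∃ R : X → X → Prop, BorelGraph R ∧
      (∀ x y, Relation.ReflTransGen R x y ↔ OrbitEq G x y) ∧
      (∀ x y, OrbitEq G x y → x = y ∨ R x y ∨ ∃ z, R x z ∧ R z y) ∧
      ∃ f : ℕ → X → X, (∀ n, BorelMap (f n)) ∧ ∀ x y, R x y ↔ x ≠ y ∧ ∃ n, f n x = y ∨ f n y = x := by
  letI : MeasurableSpace G := borel G
  haveI : BorelSpace G := ⟨rfl⟩
  letI : MeasurableSpace X := borel X
  haveI : BorelSpace X := ⟨rfl⟩
  letI := TopologicalSpace.upgradeIsCompletelyMetrizable G
  have hprod : (inferInstance : MeasurableSpace (G × X)) = borel (G × X) := BorelSpace.measurable_eq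
  have hprod2 : (inferInstance : MeasurableSpace (X × X)) = borel (X × X) := BorelSpace.measurable_eq
  haveI : MeasurableSMul₂ G X := ⟨by
    intro s hs
    have h : @MeasurableSet (G × X) (borel (G × X)) ((fun p : G × X => p.1 • p.2) ⁻¹' s) := hact s hs
    rw [← hprod] at h
    exact h⟩
  obtain ⟨f, hf, horb, hcov⟩ := H48I.graphic_functions (G := G) (X := X)
  let R : X → X → Prop := fun x y => x ≠ y ∧ ∃ n, f n x = y ∨ f n y = x
  have hsub : ∀ x y : X, R x y → OrbitEq G x y := by
    rintro x y ⟨-, n, h | h⟩
    · obtain ⟨g, hg⟩ := horb n x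
      exact ⟨g, hg.trans h⟩
    · obtain ⟨g, hg⟩ := horb n y
      refine ⟨g⁻¹, ?_⟩
      rw [← h, ← hg, inv_smul_smul]
  have hdist : ∀ x y : X, OrbitEq G x y → x = y ∨ R x y ∨ ∃ z, R x z ∧ R z y := by
    rintro x y ⟨g, rfl⟩
    obtain ⟨z, m, n, h1, h2⟩ := hcov x g
    by_cases hxy : x = g • x
    · exact Or.inl hxy
    · refine Or.inr ?_
      by_cases hxz : x = z
      · subst hxz
        exact Or.inl ⟨hxy, n, Or.inl h2⟩
      · by_cases hzy : z = g • x
        · exact Or.inl ⟨hxy, m, Or.inr (by rw [← hzy]; exact h1)⟩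
        · exact Or.inr ⟨z, ⟨hxz, m, Or.inr h1⟩, ⟨hzy, n, Or.inl h2⟩⟩
  have hgraph : BorelGraph R := by
    constructor
    · rintro x y ⟨h, n, h1⟩
      exact ⟨h.symm, n, h1.symm⟩
    · rintro x ⟨h, -⟩
      exact h rfl
    · change @MeasurableSet (X × X) (borel (X × X)) {p : X × X | R p.1 p.2}
      rw [← hprod2]
      have hset : {p : X × X | R p.1 p.2} =
          {p : X × X | p.1 = p.2}ᶜ ∩ ⋃ n, ({p : X × X | f n p.1 = p.2} ∪ {p : X × X | f n p.2 = p.1}) := by
        ext p
        simp [R]
      rw [hset]
      refine (measurableSet_eq_fun measurable_fst measurable_snd).compl.inter (MeasurableSet.iUnion fun n => ?_)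
      exact (measurableSet_eq_fun ((hf n).comp measurable_fst) measurable_snd).union
        (measurableSet_eq_fun ((hf n).comp measurable_snd) measurable_fst)
  refine ⟨R, hgraph, ?_, hdist, f, fun n s hs => hf n hs, fun _ _ => Iff.rfl⟩
  intro x y
  constructor
  · intro h
    induction h with
    | refl => exact ⟨1, one_smul _ _⟩
    | tail _ h2 ih =>
      obtain ⟨g, hg⟩ := ih
      obtain ⟨g', hg'⟩ := hsub _ _ h2
      exact ⟨g' * g, by rw [mul_smul, hg, hg']⟩
  · intro h
    rcases hdist x y h with h1 | h1 | ⟨z, h1, h2⟩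
    · rw [h1]
    · exact Relation.ReflTransGen.single h1
    · exact (Relation.ReflTransGen.single h1).tail h2

end Pool.Agent.Results.MP_7aa222_lc.PolishGroupsGraphic
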